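import Pool.Agent.W751.RR.Stm

set_option autoImplicit false

open Filter Topology MeasureTheory Set

namespace Pool.Agent.W405.RR

open Pool.Agent.W751.RR

/-- the kernel is integrable on the disc (Lebesgue). -/
lemma integrableOn_kernel (w : ℂ) (ρ : ℝ) :
    IntegrableOn (fun z : ℂ => (w - z)⁻¹) (Metric.closedBall (0 : ℂ) ρ) := by
  -- integrability of `‖z‖⁻¹` on balls
  have h1 : ∀ R : ℝ, IntegrableOn (fun z : ℂ => ‖z‖⁻¹) (Metric.ball (0 : ℂ) R) := by
    intro R
    rw [integrableOn_fun_norm_addHaar (f := fun y : ℝ => y⁻¹) (volume : Measure ℂ)]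
    have h2 : IntegrableOn (fun _ : ℝ => (1 : ℝ)) (Ioo 0 R) := by
      apply integrableOn_const
      · simp
      · simp
    refine h2.congr_fun ?_ measurableSet_Ioo
    intro y hy
    have hy0 : y ≠ 0 := hy.1.ne'
    simp [Complex.finrank_real_complex, hy0]
  have h2 : IntegrableOn (fun z : ℂ => (-z)⁻¹) (Metric.ball (0 : ℂ) (‖w‖ + |ρ| + 1)) := by
    refine (h1 (‖w‖ + |ρ| + 1)).mono' ?_ ?_
    · exact (measurable_neg.inv).aestronglyMeasurable
    · refine Eventually.of_forall fun z => ?_
      simp
  have h3 : IntegrableOn (fun z : ℂ => (-(z - w))⁻¹)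
      ((fun z : ℂ => z - w) ⁻¹' (Metric.ball (0 : ℂ) (‖w‖ + |ρ| + 1))) :=
    ((measurePreserving_sub_right (volume : Measure ℂ) w).integrableOn_comp_preimage
      (MeasurableEquiv.subRight w).measurableEmbedding).mpr h2
  have h4 : (fun z : ℂ => (-(z - w))⁻¹) = fun z : ℂ => (w - z)⁻¹ := by
    funext z; rw [neg_sub]
  rw [h4] at h3
  refine h3.mono_set ?_
  intro z hz
  simp only [mem_preimage, Metric.mem_ball, dist_zero_right, Metric.mem_closedBall] at hz ⊢
  have := norm_sub_le z w
  have := le_abs_self ρ
  linarith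

lemma avg_lt (w : ℂ) (r : ℝ) (hr : 0 < r) (h : r < ‖w‖) :
    Real.circleAverage (fun z : ℂ => (w - z)⁻¹) 0 r = w⁻¹ := by
  have h1 : Real.circleAverage (fun z : ℂ => (w - z)⁻¹) 0 r = (fun z : ℂ => (w - z)⁻¹) 0 := by
    refine circleAverage_of_differentiable_on_off_countable (s := ∅) countable_empty ?_ ?_
    · intro z hz
      have hz' : ‖z‖ ≤ r := by simpa [abs_of_pos hr] using hz
      have hne : w - z ≠ 0 := by
        intro h0
        rw [sub_eq_zero] at h0
        rw [h0] at h
        linarith
      exact ((continuousAt_const.sub continuousAt_id).inv₀ hne).continuousWithinAt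
    · intro z hz
      have hz' : ‖z‖ < r := by simpa [abs_of_pos hr] using hz
      have hne : w - z ≠ 0 := by
        intro h0
        rw [sub_eq_zero] at h0
        rw [h0] at h
        linarith
      exact ((differentiableAt_const w).sub differentiableAt_id).inv hne
  rw [h1]
  simp

lemma avg_gt (w : ℂ) (r : ℝ) (h : ‖w‖ < r) :
    Real.circleAverage (fun z : ℂ => (w - z)⁻¹) 0 r = 0 := by
  have hr : 0 < r := (norm_nonneg w).trans_lt h
  rw [Real.circleAverage_eq_circleAverage_zero_one, ← Real.circleAverage_zero_one_congr_inv]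
  have h2 : Real.circleAverage (fun z : ℂ => (w - ((r : ℂ) * z⁻¹ + 0))⁻¹) 0 1 =
      Real.circleAverage (fun z : ℂ => z / (w * z - r)) 0 1 := by
    refine Real.circleAverage_congr_sphere ?_
    intro z hz
    have hz1 : ‖z‖ = 1 := by simpa using hz
    have hz0 : z ≠ 0 := by
      intro h0
      rw [h0, norm_zero] at hz1
      exact zero_ne_one hz1
    have : w - ((r : ℂ) * z⁻¹ + 0) = (w * z - r) / z := by field_simp; ring
    simp only [this, inv_div]
  rw [h2]
  have h1 : Real.circleAverage (fun z : ℂ => z / (w * z - r)) 0 1 =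
      (fun z : ℂ => z / (w * z - r)) 0 := by
    have hne : ∀ z : ℂ, ‖z‖ ≤ 1 → w * z - r ≠ 0 := by
      intro z hz h0
      rw [sub_eq_zero] at h0
      have h3 : ‖w * z‖ = r := by
        rw [h0]; simp [abs_of_pos hr]
      rw [norm_mul] at h3
      nlinarith [norm_nonneg w, norm_nonneg z]
    refine circleAverage_of_differentiable_on_off_countable (s := ∅) countable_empty ?_ ?_
    · intro z hz
      have hz' : ‖z‖ ≤ 1 := by simpa using hz
      refine ContinuousAt.continuousWithinAt ?_
      exact continuousAt_id.div ((continuousAt_const.mul continuousAt_id).sub continuousAt_const)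
        (hne z hz')
    · intro z hz
      have hz' : ‖z‖ < 1 := by simpa using hz
      exact differentiableAt_id.div (((differentiableAt_const w).mul differentiableAt_id).sub
        (differentiableAt_const _)) (hne z hz'.le)
  rw [h1]
  simp

/-- integration in polar coordinates with circle averages. -/
lemma polar_avg (f : ℂ → ℂ) (hm : Measurable f) (hf : Integrable f) :
    ∫ z, f z = ∫ r in Ioi (0 : ℝ), r • ((2 * Real.pi) • Real.circleAverage f 0 r) := by
  rw [← Complex.integral_comp_polarCoord_symm, polarCoord_target]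
  have hint : IntegrableOn (fun p : ℝ × ℝ => p.1 • f (Complex.polarCoord.symm p))
      (Ioi (0 : ℝ) ×ˢ Ioo (-Real.pi) Real.pi) (volume.prod volume) := by
    refine ⟨?_, ?_⟩
    · refine Measurable.aestronglyMeasurable ?_
      refine measurable_fst.smul (hm.comp ?_)
      have : (fun p : ℝ × ℝ => Complex.polarCoord.symm p) = fun p : ℝ × ℝ =>
          (p.1 : ℂ) * (Real.cos p.2 + Real.sin p.2 * Complex.I) := by
        funext p
        exact Complex.polarCoord_symm_apply p
      have h3 : Measurable (fun p : ℝ × ℝ => Complex.polarCoord.symm p) := by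
        rw [this]
        fun_prop
      exact h3
    · rw [hasFiniteIntegral_iff_enorm]
      have h4 := Complex.lintegral_comp_polarCoord_symm (fun z => ‖f z‖ₑ)
      rw [polarCoord_target] at h4
      have h5 : ∫⁻ (p : ℝ × ℝ) in Ioi (0 : ℝ) ×ˢ Ioo (-Real.pi) Real.pi,
          ‖p.1 • f (Complex.polarCoord.symm p)‖ₑ ∂(volume.prod volume) =
          ∫⁻ (p : ℝ × ℝ) in Ioi (0 : ℝ) ×ˢ Ioo (-Real.pi) Real.pi,
          ENNReal.ofReal p.1 • ‖f (Complex.polarCoord.symm p)‖ₑ := by
        refine setLIntegral_congr_fun (measurableSet_Ioi.prod measurableSet_Ioo) ?_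
        intro p hp
        have hp1 : 0 < p.1 := hp.1
        simp only [smul_eq_mul]
        rw [enorm_smul, Real.enorm_eq_ofReal hp1.le]
      rw [h5, h4]
      exact hf.2
  have h6 : ∫ p in Ioi (0 : ℝ) ×ˢ Ioo (-Real.pi) Real.pi,
      p.1 • f (Complex.polarCoord.symm p) =
      ∫ r in Ioi (0 : ℝ), ∫ θ in Ioo (-Real.pi) Real.pi,
        r • f (Complex.polarCoord.symm (r, θ)) :=
    setIntegral_prod (μ := (volume : Measure ℝ)) (ν := (volume : Measure ℝ)) _ hint
  rw [h6]
  refine setIntegral_congr_fun measurableSet_Ioi ?_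
  intro r hr
  simp only
  rw [integral_smul]
  congr 1
  rw [Real.circleAverage_eq_integral_add (-Real.pi),
    intervalIntegral.integral_comp_add_right (fun θ => f (circleMap 0 r θ)),
    smul_smul, mul_inv_cancel₀ (by positivity), one_smul, zero_add]
  have h7 : 2 * Real.pi + -Real.pi = Real.pi := by ring
  rw [h7, intervalIntegral.integral_of_le (by linarith [Real.pi_pos]),
    integral_Ioc_eq_integral_Ioo]
  refine setIntegral_congr_fun measurableSet_Ioo ?_
  intro θ _
  simp only [Complex.polarCoord_symm_apply, circleMap_zero, Complex.exp_mul_I,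
    Complex.ofReal_cos, Complex.ofReal_sin]

theorem potC : S_POTC := by
  intro ρ hρ w
  have hK := integrableOn_kernel w ρ
  have hvol : volume (Metric.closedBall (0 : ℂ) ρ) = ENNReal.ofReal (Real.pi * ρ ^ 2) := by
    rw [Complex.volume_closedBall, mul_comm, ENNReal.ofReal_mul Real.pi_pos.le,
      ENNReal.ofReal_pow hρ.le]
    congr 1
    rw [ENNReal.ofReal, Real.toNNReal_of_nonneg Real.pi_pos.le]
    rfl
  have hvol0 : volume (Metric.closedBall (0 : ℂ) ρ) ≠ 0 := by
    rw [hvol]
    simp only [ne_eq, ENNReal.ofReal_eq_zero, not_le]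
    have := Real.pi_pos
    positivity
  constructor
  · unfold m1
    exact hK.smul_measure (ENNReal.inv_ne_top.mpr hvol0)
  · unfold m1
    rw [integral_smul_measure]
    have hcoef : ((volume (Metric.closedBall (0 : ℂ) ρ))⁻¹).toReal = (Real.pi * ρ ^ 2)⁻¹ := by
      rw [hvol, ENNReal.toReal_inv, ENNReal.toReal_ofReal]
      have := Real.pi_pos
      positivity
    rw [hcoef]
    -- pass to the indicator
    set f : ℂ → ℂ := (Metric.closedBall (0 : ℂ) ρ).indicator (fun z : ℂ => (w - z)⁻¹) with hf
    have hfm : Measurable f :=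
      ((measurable_const.sub measurable_id).inv).indicator Metric.isClosed_closedBall.measurableSet
    have hfi : Integrable f := hK.integrable_indicator Metric.isClosed_closedBall.measurableSet
    have h1 : ∫ z in Metric.closedBall (0 : ℂ) ρ, (w - z)⁻¹ = ∫ z, f z := by
      rw [hf, integral_indicator Metric.isClosed_closedBall.measurableSet]
    rw [h1, polar_avg f hfm hfi]
    -- the circle averages
    have havg : ∀ r : ℝ, 0 < r → r ≠ ρ → r ≠ ‖w‖ →
        Real.circleAverage f 0 r = if r < min ρ ‖w‖ then w⁻¹ else 0 := by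
      intro r hr hr1 hr2
      by_cases hrρ : r ≤ ρ
      · have e1 : Real.circleAverage f 0 r =
            Real.circleAverage (fun z : ℂ => (w - z)⁻¹) 0 r := by
          refine Real.circleAverage_congr_sphere ?_
          intro z hz
          have hz' : ‖z‖ = r := by simpa [abs_of_pos hr] using hz
          rw [hf, indicator_of_mem]
          simp [hz', hrρ]
        rw [e1]
        rcases lt_or_gt_of_ne hr2 with h | h
        · rw [avg_lt w r hr h, if_pos]
          exact lt_min (lt_of_le_of_ne hrρ hr1) h
        · rw [avg_gt w r h, if_neg]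
          intro h'
          exact absurd (h'.trans_le (min_le_right _ _)) (by linarith)
      · have e1 : Real.circleAverage f 0 r = Real.circleAverage (fun _ : ℂ => (0 : ℂ)) 0 r := by
          refine Real.circleAverage_congr_sphere ?_
          intro z hz
          have hz' : ‖z‖ = r := by simpa [abs_of_pos hr] using hz
          rw [hf, indicator_of_notMem]
          simp only [Metric.mem_closedBall, dist_zero_right, hz']
          exact hrρ
        rw [e1, if_neg]
        · simp [Real.circleAverage]
        · intro h'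
          exact hrρ ((h'.le).trans (min_le_left _ _))
    set m : ℝ := min ρ ‖w‖ with hm
    have hm0 : 0 ≤ m := le_min hρ.le (norm_nonneg w)
    have h2 : ∫ r in Ioi (0 : ℝ), r • ((2 * Real.pi) • Real.circleAverage f 0 r) =
        ∫ r in Ioi (0 : ℝ), (Ioo 0 m).indicator
          (fun r : ℝ => (r : ℂ) * ((2 * Real.pi : ℝ) * w⁻¹)) r := by
      refine setIntegral_congr_ae measurableSet_Ioi ?_
      have hn1 : ∀ᵐ r : ℝ, r ≠ ρ := by simp [ae_iff, measure_singleton]
      have hn2 : ∀ᵐ r : ℝ, r ≠ ‖w‖ := by simp [ae_iff, measure_singleton]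
      filter_upwards [hn1, hn2] with r hr1 hr2 hr0
      rw [havg r hr0 hr1 hr2]
      by_cases hrm : r < m
      · rw [if_pos hrm, indicator_of_mem (show r ∈ Ioo 0 m from ⟨hr0, hrm⟩)]
        simp only [Complex.real_smul]
      · rw [if_neg hrm, indicator_of_notMem (fun h => hrm h.2)]
        simp
    rw [h2, setIntegral_indicator measurableSet_Ioo]
    have h3 : Ioi (0 : ℝ) ∩ Ioo 0 m = Ioo 0 m := by
      ext r; simp only [mem_inter_iff, mem_Ioi, mem_Ioo]; tauto
    rw [h3, integral_mul_const, ← integral_Ioc_eq_integral_Ioo,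
      ← intervalIntegral.integral_of_le hm0, intervalIntegral.integral_ofReal, integral_id]
    unfold V
    have hπ : (Real.pi : ℂ) ≠ 0 := by exact_mod_cast Real.pi_ne_zero
    have hρc : (ρ : ℂ) ≠ 0 := by exact_mod_cast hρ.ne'
    by_cases hw0 : w = 0
    · subst hw0
      simp [hρ.le]
    by_cases hw : ‖w‖ ≤ ρ
    · rw [if_pos hw]
      have hmw : m = ‖w‖ := min_eq_right hw
      have hnorm : (starRingEnd ℂ) w = (‖w‖ : ℂ) ^ 2 * w⁻¹ := by
        have := Complex.conj_mul' w
        field_simp
        rw [← this]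
      rw [hmw, hnorm, Complex.real_smul]
      push_cast
      field_simp
      ring
    · rw [if_neg hw]
      have hmw : m = ρ := min_eq_left (le_of_not_ge hw)
      rw [hmw, Complex.real_smul]
      push_cast
      field_simp
      ring

end Pool.Agent.W405.RR
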